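import Pool.Agent.Q74.SP.NA6
import Pool.Agent.Results.MP_ff4775_nt.DivergentAsymptotics

/-! Divergent trajectories of the `3x+1` map: the constants `W`, the coordinates in a class. -/

set_option autoImplicit false

namespace Pool.Agent.Q74.DV

open Finset Filter Topology MeasureTheory

open Pool.Agent.Q74.SP

/-- the trajectory of `n` is divergent -/
def Dv (n : ℤ) : Prop := Tendsto (fun k : ℕ => |T^[k] n|) atTop atTop

/-- the trajectories of `m` and `n` merge -/
def Mer (m n : ℤ) : Prop := ∃ i j : ℕ, T^[i] m = T^[j] n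

theorem dv_inj {n : ℤ} (h : Dv n) : Function.Injective (fun k : ℕ => T^[k] n) :=
  Pool.Agent.Results.MP_ff4775_nt.DivergentAsymptotics.injective_of_tendsto h

theorem dv_iter (n : ℤ) (j : ℕ) : Dv n ↔ Dv (T^[j] n) := by
  unfold Dv
  have : (fun k : ℕ => |T^[k] (T^[j] n)|) = fun k : ℕ => (fun k : ℕ => |T^[k] n|) (k + j) := by
    funext k
    simp only [Function.iterate_add_apply]
  rw [this, tendsto_add_atTop_iff_nat (f := fun k : ℕ => |T^[k] n|) j]

theorem dv_mer {m n : ℤ} (h : Mer m n) : Dv m ↔ Dv n := by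
  obtain ⟨i, j, hij⟩ := h
  rw [dv_iter m i, dv_iter n j, hij]

theorem dv_ne {n : ℤ} (h : Dv n) : n ≠ 0 := by
  rintro rfl
  have h1 : T^[1] (0 : ℤ) = T^[0] 0 := rfl
  exact absurd (dv_inj h h1) (by norm_num)

theorem mer_refl (n : ℤ) : Mer n n := ⟨0, 0, rfl⟩

theorem mer_symm {m n : ℤ} (h : Mer m n) : Mer n m := by
  obtain ⟨i, j, hij⟩ := h
  exact ⟨j, i, hij.symm⟩

theorem mer_trans {l m n : ℤ} (h : Mer l m) (h' : Mer m n) : Mer l n := by
  obtain ⟨i, j, hij⟩ := h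
  obtain ⟨i', j', hij'⟩ := h'
  refine ⟨i' + i, j + j', ?_⟩
  rw [Function.iterate_add_apply, hij, ← Function.iterate_add_apply, add_comm i' j,
    Function.iterate_add_apply, hij', ← Function.iterate_add_apply]

theorem mer_iter (n : ℤ) (j : ℕ) : Mer n (T^[j] n) := ⟨j, 0, rfl⟩

/-! ### the constants -/

/-- the sequence `2 ^ k T^k n / 3 ^ odds` -/
noncomputable def useq (n : ℤ) (k : ℕ) : ℝ := (2 : ℝ) ^ k * (T^[k] n : ℤ) / 3 ^ (odds k n)

/-- its limit -/
noncomputable def W (n : ℤ) : ℝ := limUnder atTop (useq n)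

/-- the logarithm of `W n / n` -/
noncomputable def rr (n : ℤ) : ℝ := Real.log (W n) - Real.log (n : ℝ)

theorem W_spec : ∃ A : ℝ, 0 < A ∧ ∀ n : ℤ, Dv n →
    W n ≠ 0 ∧ Tendsto (useq n) atTop (𝓝 (W n)) ∧ |rr n| ≤ A := by
  obtain ⟨h1, h2⟩ := Pool.Agent.Results.MP_ff4775_nt.DivergentAsymptotics.result
  obtain ⟨A, hA⟩ := h1 0.951 h2 (by norm_num)
  refine ⟨|A| + 1, by positivity, fun n hn => ?_⟩
  obtain ⟨w, hw0, hw, hk⟩ := hA n hn
  have hw' : Tendsto (useq n) atTop (𝓝 w) := hw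
  have e1 : W n = w := hw'.limUnder_eq
  refine ⟨by rw [e1]; exact hw0, by rw [e1]; exact hw', ?_⟩
  have h3 := hk 0 1 le_rfl (fun j _ => by
    have h4 : T^[j] n ≠ 0 := iter_ne (dv_ne hn) j
    have h5 : 1 ≤ |T^[j] n| := Int.one_le_abs h4
    have h6 : (1 : ℝ) ≤ |((T^[j] n : ℤ) : ℝ)| := by exact_mod_cast h5
    exact h6)
  simp only [pow_zero, Function.iterate_zero, id_eq, one_mul, Real.one_rpow, mul_one] at h3
  have h4 : Pool.Agent.Results.MP_ff4775_nt.DivergentAsymptotics.odd 0 n = 0 := by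
    unfold Pool.Agent.Results.MP_ff4775_nt.DivergentAsymptotics.odd
    simp
  rw [h4, pow_zero, div_one, Real.log_abs, Real.log_abs] at h3
  unfold rr
  rw [e1]
  have := le_abs_self A
  linarith

theorem W_iter {n : ℤ} (h : Dv n) (j : ℕ) : W n = 2 ^ j / 3 ^ (odds j n) * W (T^[j] n) := by
  obtain ⟨A, hA0, hA⟩ := W_spec
  have h1 := (hA n h).2.1
  have h2 := (hA _ ((dv_iter n j).1 h)).2.1
  have h3 : Tendsto (fun k => useq n (k + j)) atTop (𝓝 (W n)) := h1.comp (tendsto_add_atTop_nat j)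
  have h4 := h2.const_mul ((2 : ℝ) ^ j / 3 ^ (odds j n))
  refine tendsto_nhds_unique h3 (h4.congr fun k => ?_)
  unfold useq
  rw [← Function.iterate_add_apply, Nat.add_comm k j, odds_add, pow_add, pow_add]
  field_simp

theorem rr_iter {n : ℤ} (h : Dv n) (j : ℕ) :
    rr n - rr (T^[j] n) = j * Real.log 2 - odds j n * Real.log 3 - Real.log (n : ℝ)
      + Real.log ((T^[j] n : ℤ) : ℝ) := by
  obtain ⟨A, hA0, hA⟩ := W_spec
  have h2 := (hA _ ((dv_iter n j).1 h)).1
  unfold rr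
  rw [W_iter h j, Real.log_mul (by positivity) h2, Real.log_div (by positivity) (by positivity), Real.log_pow,
    Real.log_pow]
  ring

/-! ### the coordinates -/

theorem coord {n0 n : ℤ} (h0 : Dv n0) {i j i' j' : ℕ} (h : T^[i] n = T^[j] n0) (h' : T^[i'] n = T^[j'] n0) :
    (i : ℤ) - j = i' - j' ∧ (odds i n : ℤ) - odds j n0 = odds i' n - odds j' n0 := by
  wlog hle : i ≤ i' generalizing i j i' j'
  · have := this h' h (by omega)
    exact ⟨this.1.symm, this.2.symm⟩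
  obtain ⟨d, rfl⟩ := Nat.exists_eq_add_of_le hle
  have h1 : T^[j + d] n0 = T^[j'] n0 := by
    rw [← h', Nat.add_comm i d, Nat.add_comm j d, Function.iterate_add_apply, Function.iterate_add_apply, h]
  have h2 : j + d = j' := dv_inj h0 h1
  subst h2
  constructor
  · push_cast; ring
  · rw [odds_add, odds_add, h]
    push_cast
    ring

open Classical in
/-- the first coordinate in the class of `n0` -/
noncomputable def kk (n0 n : ℤ) : ℤ := if h : Mer n n0 then (h.choose : ℤ) - h.choose_spec.choose else 0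

open Classical in
/-- the second coordinate in the class of `n0` -/
noncomputable def oo (n0 n : ℤ) : ℤ :=
  if h : Mer n n0 then (odds h.choose n : ℤ) - odds h.choose_spec.choose n0 else 0

theorem kk_oo {n0 n : ℤ} (h0 : Dv n0) {i j : ℕ} (h : T^[i] n = T^[j] n0) :
    kk n0 n = i - j ∧ oo n0 n = odds i n - odds j n0 := by
  have hm : Mer n n0 := ⟨i, j, h⟩
  unfold kk oo
  rw [dif_pos hm, dif_pos hm]
  exact coord h0 hm.choose_spec.choose_spec h

theorem rr_kk {n0 n : ℤ} (h0 : Dv n0) (hm : Mer n n0) :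
    rr n = kk n0 n * Real.log 2 - oo n0 n * Real.log 3 + Real.log (W n0) - Real.log (n : ℝ) := by
  obtain ⟨i, j, hij⟩ := hm
  obtain ⟨h1, h2⟩ := kk_oo h0 hij
  have hn : Dv n := (dv_mer ⟨i, j, hij⟩).2 h0
  have e1 := rr_iter hn i
  have e2 := rr_iter h0 j
  have e3 : rr n0 = Real.log (W n0) - Real.log (n0 : ℝ) := rfl
  rw [hij] at e1
  rw [h1, h2]
  push_cast
  linarith

/-- `x` and `3 ^ a x + b` when the trajectories have merged at time `t` -/
theorem pair_coord {n0 : ℤ} (h0 : Dv n0) {x b : ℤ} {a t : ℕ} (hx : x ≠ 0)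
    (heq : T^[t] x = T^[t] (3 ^ a * x + b)) (h1 : 8 * 2 ^ t ≤ |x|) (h2 : 8 * |b| ≤ |x|) :
    (Mer x n0 ↔ Mer (3 ^ a * x + b) n0) ∧ (Mer x n0 → kk n0 (3 ^ a * x + b) = kk n0 x ∧
      oo n0 x = oo n0 (3 ^ a * x + b) + a) := by
  have hxx : Mer x (3 ^ a * x + b) := ⟨t, t, heq⟩
  refine ⟨⟨fun h => mer_trans (mer_symm hxx) h, fun h => mer_trans hxx h⟩, ?_⟩
  rintro ⟨i, j, hij⟩
  have hodd := odds_eq hx heq h1 h2
  have e1 : T^[t + i] x = T^[t + j] n0 := by
    rw [Function.iterate_add_apply, Function.iterate_add_apply, hij]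
  have e2 : T^[t + i] (3 ^ a * x + b) = T^[t + j] n0 := by
    rw [← e1, Nat.add_comm t i, Function.iterate_add_apply, Function.iterate_add_apply, heq]
  obtain ⟨p1, p2⟩ := kk_oo h0 e1
  obtain ⟨q1, q2⟩ := kk_oo h0 e2
  refine ⟨by rw [p1, q1], ?_⟩
  rw [p2, q2, odds_add t i x, odds_add t i (3 ^ a * x + b), hodd, heq]
  push_cast
  ring

/-- residues of `x` and `3 ^ a x + b` when the trajectories have merged at time `t` -/
theorem pair_rr {x b : ℤ} {a t : ℕ} (hd : Dv x)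
    (heq : T^[t] x = T^[t] (3 ^ a * x + b)) (h1 : 8 * 2 ^ t ≤ |x|) (h2 : 8 * |b| ≤ |x|) :
    |rr (3 ^ a * x + b) - rr x| ≤ 2 * |(b : ℝ)| / |(x : ℝ)| := by
  have hx : x ≠ 0 := dv_ne hd
  set x' : ℤ := 3 ^ a * x + b with hx'
  have hd' : Dv x' := (dv_mer ⟨t, t, heq⟩).1 hd
  have hodd := odds_eq hx heq h1 h2
  have e1 := rr_iter hd t
  have e2 := rr_iter hd' t
  rw [← heq] at e2
  have hxR : (x : ℝ) ≠ 0 := by exact_mod_cast hx
  have haxR : 0 < |(x : ℝ)| := abs_pos.2 hxR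
  have h2R : 8 * |(b : ℝ)| ≤ |(x : ℝ)| := by exact_mod_cast h2
  have h3aR : (1 : ℝ) ≤ 3 ^ a := one_le_pow₀ (by norm_num)
  set u : ℝ := b / (3 ^ a * x) with hu'
  have hu0 : |u| ≤ |(b : ℝ)| / |(x : ℝ)| := by
    rw [hu', abs_div, abs_mul, abs_of_pos (by positivity : (0 : ℝ) < 3 ^ a)]
    apply div_le_div_of_nonneg_left (abs_nonneg _) haxR
    nlinarith
  have hu1 : |u| ≤ 1 / 8 := by
    refine hu0.trans ?_
    rw [div_le_div_iff₀ haxR (by norm_num)]
    linarith
  have hlog : Real.log (x' : ℝ) = a * Real.log 3 + Real.log (x : ℝ) + Real.log (1 + u) := by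
    have e' : (x' : ℝ) = 3 ^ a * x * (1 + u) := by
      rw [hx', hu']
      push_cast
      field_simp
    have hpos : 0 < 1 + u := by
      have := (abs_le.1 hu1).1
      linarith
    rw [e', Real.log_mul (by positivity) hpos.ne', Real.log_mul (by positivity) hxR, Real.log_pow]
  have h5 := log_one_add (u := u) (by linarith)
  have e3 : rr x' - rr x = -Real.log (1 + u) := by
    have e4 : (odds t x : ℝ) = odds t x' + a := by exact_mod_cast hodd
    rw [hlog] at e2
    rw [e4] at e1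
    linarith
  rw [e3, abs_neg]
  refine h5.trans ?_
  rw [mul_div_assoc]
  have := abs_nonneg u
  linarith

end Pool.Agent.Q74.DV
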