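import Pool.Agent.Q74.DV.Law
import Pool.Agent.H499R2.CL.O4

/-! Central limit theorem for the times in the merging class of a divergent trajectory. -/

set_option autoImplicit false

namespace Pool.Agent.Q74.DV

open Finset Filter Topology MeasureTheory

open Pool.Agent.Q74.SP

open Pool.Agent.H499R2.LT (Hit FY PF od)
open Pool.Agent.H499R2.ND (Td Stay stay_side Dn cnt cnt_or cnt_mono cnt_eq sg Phi Phi_continuous dn_squeeze
  large_log sg_pos)
open Pool.Agent.H319R2.Lln (mu)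

open Classical in
theorem reach (n0 : ℤ) (Y : ℕ) : ∃ J : ℕ, ∀ x : ℤ, Mer x n0 → x ∉ Stay 1 (Y : ℝ) →
    ∃ k : ℕ, T^[k] x = T^[J] n0 := by
  set F : Finset ℤ := (FY Y).filter (fun g => Mer g n0) with hF
  have hch : ∀ g : ℤ, ∃ j : ℕ, g ∈ F → ∃ i : ℕ, T^[i] g = T^[j] n0 := by
    intro g
    by_cases hg : g ∈ F
    · rw [hF, mem_filter] at hg
      obtain ⟨i, j, hij⟩ := hg.2
      exact ⟨j, fun _ => ⟨i, hij⟩⟩
    · exact ⟨0, fun h => absurd h hg⟩
  choose jj hjj using hch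
  refine ⟨∑ g ∈ F, jj g, fun x hx hst => ?_⟩
  unfold Stay at hst
  rw [Set.mem_ofPred_eq, not_forall] at hst
  obtain ⟨k, hk⟩ := hst
  rw [not_lt] at hk
  have hg : T^[k] x ∈ F := by
    rw [hF, mem_filter]
    constructor
    · unfold FY
      rw [mem_Icc, ← abs_le]
      exact_mod_cast hk
    · exact mer_trans (mer_symm (mer_iter x k)) hx
  obtain ⟨i, hi⟩ := hjj _ hg
  have hle : jj (T^[k] x) ≤ ∑ g ∈ F, jj g := Finset.single_le_sum (fun _ _ => Nat.zero_le _) hg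
  refine ⟨(∑ g ∈ F, jj g - jj (T^[k] x)) + (i + k), ?_⟩
  rw [Function.iterate_add_apply, Function.iterate_add_apply, hi, ← Function.iterate_add_apply,
    Nat.sub_add_cancel hle]

theorem Phi_le_one (x : ℝ) : Phi x ≤ 1 := by
  unfold Phi
  exact measureReal_le_one

theorem Phi_nonneg (x : ℝ) : 0 ≤ Phi x := by
  unfold Phi
  exact measureReal_nonneg

/-- the bound for the times -/
noncomputable def bd (x : ℝ) (n : ℕ) : ℝ := Real.log n / mu + x * sg * Real.sqrt (Real.log n)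

theorem clt {n0 : ℤ} (h0 : Dv n0) {s : ℤ} (hs : s = 1 ∨ s = -1) {δ : ℝ}
    (hδ : Dn (fun n : ℕ => Mer (s * n) n0) δ) (x : ℝ) :
    Dn (fun n : ℕ => Mer (s * n) n0 ∧ (kk n0 (s * n) : ℝ) ≤ bd x n) (δ * Phi x) := by
  classical
  unfold Dn
  rw [Metric.tendsto_atTop']
  intro ε hε
  set ρ : ℝ := ε / 6 with hρ
  have hρpos : 0 < ρ := by positivity
  obtain ⟨Y, hY⟩ := stay_small hs hρpos
  obtain ⟨J, hJ⟩ := reach n0 Y
  set F : Finset ℤ := {T^[J] n0} with hF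
  obtain ⟨δJ, c, hδJ0, -, -, -, hD, hclt, -⟩ := Pool.Agent.H499R2.LT.laws_side odd_one
    (by norm_num : ¬ (3 : ℤ) ∣ 1) hs F
  set St : ℕ → Prop := fun n => s * (n : ℤ) ∈ Stay 1 (Y : ℝ) with hSt
  have hStc : ∀ N : ℕ, 1 ≤ N → cnt St N ≤ ρ * N := by
    intro N hN
    rw [cnt_eq]
    exact hY Y le_rfl N hN
  -- the classes
  set PJ : ℕ → Prop := fun n => ∃ k : ℕ, (Td 1)^[k] (s * n) ∈ F with hPJ
  have hPJ1 : ∀ n, PJ n → Mer (s * n) n0 := by
    rintro n ⟨k, hk⟩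
    rw [hF, mem_singleton] at hk
    exact ⟨k, J, hk⟩
  have hPJ2 : ∀ n : ℕ, Mer (s * n) n0 → PJ n ∨ St n := by
    intro n hn
    by_cases hst : St n
    · exact Or.inr hst
    · left
      obtain ⟨k, hk⟩ := hJ _ hn hst
      exact ⟨k, by rw [hF, mem_singleton]; exact hk⟩
  have hδ1 : δJ ≤ δ := by
    refine le_of_tendsto_of_tendsto' hD hδ fun N => ?_
    apply div_le_div_of_nonneg_right _ (Nat.cast_nonneg N)
    exact cnt_mono N fun n _ _ h => hPJ1 n h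
  have hδ2 : δ ≤ δJ + ρ := by
    refine le_of_tendsto_of_tendsto hδ (hD.add_const ρ) ?_
    filter_upwards [eventually_ge_atTop 1] with N hN
    have hN0 : (0 : ℝ) < N := by exact_mod_cast hN
    have h1 := cnt_or (P := fun n : ℕ => Mer (s * n) n0) (Q := PJ) (R := St) N fun n _ _ h => hPJ2 n h
    have h2 := hStc N hN
    rw [div_add' _ _ _ hN0.ne']
    apply div_le_div_of_nonneg_right _ hN0.le
    linarith
  -- the shifted times
  set QJ : ℕ → Prop := fun n => ∃ k : ℕ, (k : ℝ) - J ≤ bd x n ∧ (Td 1)^[k] (s * n) ∈ F with hQJ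
  have hQJd : Dn QJ (δJ * Phi x) := by
    refine dn_squeeze (P := fun x n => ∃ k : ℕ, (k : ℝ) ≤ Real.log n / mu + x * sg * Real.sqrt (Real.log n) ∧
      (Td 1)^[k] (s * n) ∈ F) (F := fun x => δJ * Phi x) (Phi_continuous.const_mul _) hclt ?_
    intro θ hθ η hη
    have hsg := sg_pos
    obtain ⟨E, hE, hE'⟩ := large_log (P := fun L => (J : ℝ) ≤ θ * sg * Real.sqrt L)
      ⟨((J : ℝ) / (θ * sg)) ^ 2, fun L hL => by
        have h4 : (J : ℝ) / (θ * sg) ≤ Real.sqrt L := Real.le_sqrt_of_sq_le hL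
        rw [div_le_iff₀ (by positivity)] at h4
        linarith⟩ hη
    refine ⟨E, hE, fun n hn hnE => ?_⟩
    have h := hE' n hn hnE
    have hb : ∀ y, bd y n = Real.log n / mu + y * sg * Real.sqrt (Real.log n) := fun y => rfl
    constructor
    · rintro ⟨k, hk, hkF⟩
      refine ⟨k, ?_, hkF⟩
      rw [hb]
      have h0J : (0 : ℝ) ≤ J := Nat.cast_nonneg J
      have : (x - θ) * sg * Real.sqrt (Real.log n) = x * sg * Real.sqrt (Real.log n)
        - θ * sg * Real.sqrt (Real.log n) := by ring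
      linarith
    · rintro ⟨k, hk, hkF⟩
      refine ⟨k, ?_, hkF⟩
      rw [hb] at hk
      have : (x + θ) * sg * Real.sqrt (Real.log n) = x * sg * Real.sqrt (Real.log n)
        + θ * sg * Real.sqrt (Real.log n) := by ring
      linarith
  have hkk : ∀ (n k : ℕ), (Td 1)^[k] (s * n) ∈ F → (kk n0 (s * n) : ℝ) = (k : ℝ) - J := by
    intro n k hk
    rw [hF, mem_singleton] at hk
    have := (kk_oo h0 (i := k) (j := J) hk).1
    rw [this]
    push_cast
    ring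
  have hQ1 : ∀ n : ℕ, QJ n → (Mer (s * n) n0 ∧ (kk n0 (s * n) : ℝ) ≤ bd x n) := by
    rintro n ⟨k, hk, hkF⟩
    refine ⟨hPJ1 n ⟨k, hkF⟩, ?_⟩
    rw [hkk n k hkF]
    exact hk
  have hQ2 : ∀ n : ℕ, (Mer (s * n) n0 ∧ (kk n0 (s * n) : ℝ) ≤ bd x n) → QJ n ∨ St n := by
    rintro n ⟨hn, hk⟩
    rcases hPJ2 n hn with ⟨k, hkF⟩ | h
    · left
      refine ⟨k, ?_, hkF⟩
      rw [hkk n k hkF] at hk
      exact hk
    · exact Or.inr h
  obtain ⟨N0, hN0⟩ := (Metric.tendsto_atTop.1 hQJd) ρ hρpos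
  refine ⟨max N0 1, fun N hN => ?_⟩
  have hN1 : 1 ≤ N := (le_max_right _ _).trans hN.le
  have hNpos : (0 : ℝ) < N := by exact_mod_cast hN1
  have h1 := hN0 N ((le_max_left _ _).trans hN.le)
  rw [Real.dist_eq, abs_lt] at h1
  have h2 := cnt_mono (P := QJ) (Q := fun n : ℕ => Mer (s * n) n0 ∧ (kk n0 (s * n) : ℝ) ≤ bd x n) N
    fun n _ _ h => hQ1 n h
  have h3 := cnt_or (P := fun n : ℕ => Mer (s * n) n0 ∧ (kk n0 (s * n) : ℝ) ≤ bd x n) (Q := QJ) (R := St) N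
    fun n _ _ h => hQ2 n h
  have h4 := hStc N hN1
  have h5 : cnt QJ N / N ≤ cnt (fun n : ℕ => Mer (s * n) n0 ∧ (kk n0 (s * n) : ℝ) ≤ bd x n) N / N :=
    div_le_div_of_nonneg_right h2 hNpos.le
  have h6 : cnt (fun n : ℕ => Mer (s * n) n0 ∧ (kk n0 (s * n) : ℝ) ≤ bd x n) N / N ≤ cnt QJ N / N + ρ := by
    rw [div_add' _ _ _ hNpos.ne']
    apply div_le_div_of_nonneg_right _ hNpos.le
    linarith
  have h7 := Phi_le_one x
  have h8 := Phi_nonneg x
  have h9 : δJ * Phi x ≤ δ * Phi x := mul_le_mul_of_nonneg_right hδ1 h8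
  have h10 : δ * Phi x ≤ δJ * Phi x + ρ := by nlinarith
  rw [Real.dist_eq, abs_lt]
  constructor <;> linarith [h1.1, h1.2]

end Pool.Agent.Q74.DV
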