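import Pool.Agent.Q74.DV.Base

/-! Functions on the merging class of a divergent trajectory. -/

set_option autoImplicit false

namespace Pool.Agent.Q74.DV

open Finset Filter Topology MeasureTheory

open Pool.Agent.Q74.SP

open Classical in
/-- the function `h (rr x) e(θ k + φ o)` on the class of `n0` -/
noncomputable def GC (n0 : ℤ) (h : ℝ → ℂ) (θ φ : ℝ) (x : ℤ) : ℂ :=
  if Mer x n0 then h (rr x) * e (θ * kk n0 x + φ * oo n0 x) else 0

theorem gc_aff {n0 : ℤ} (h0 : Dv n0) {h : ℝ → ℂ} {θ φ : ℝ} {A : ℝ}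
    (hA : ∀ x, Dv x → |rr x| ≤ A) {δ ε : ℝ} (hε : 0 ≤ ε)
    (hu : ∀ u v : ℝ, |u| ≤ A → |v| ≤ A → |u - v| < δ → ‖h u - h v‖ ≤ ε)
    {x b : ℤ} {a t : ℕ} (hx : x ≠ 0)
    (heq : T^[t] x = T^[t] (3 ^ a * x + b)) (h1 : 8 * 2 ^ t ≤ |x|) (h2 : 8 * |b| ≤ |x|)
    (h3 : 2 * |(b : ℝ)| < δ * |(x : ℝ)|) :
    ‖GC n0 h θ φ (3 ^ a * x + b) - e (-(a * φ)) * GC n0 h θ φ x‖ ≤ ε := by
  obtain ⟨hm, hc⟩ := pair_coord h0 hx heq h1 h2
  unfold GC
  by_cases hmx : Mer x n0
  · have hmx' := hm.1 hmx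
    have hd : Dv x := (dv_mer hmx).2 h0
    have hd' : Dv (3 ^ a * x + b) := (dv_mer hmx').2 h0
    rw [if_pos hmx, if_pos hmx']
    obtain ⟨c1, c2⟩ := hc hmx
    have haxR : 0 < |(x : ℝ)| := abs_pos.2 (by exact_mod_cast hx)
    have hrr := (pair_rr hd heq h1 h2).trans_lt ((div_lt_iff₀ haxR).2 h3)
    have hfin := hu _ _ (hA _ hd') (hA x hd) hrr
    have e1 : e (-(a * φ)) * (h (rr x) * e (θ * kk n0 x + φ * oo n0 x))
        = h (rr x) * e (θ * kk n0 (3 ^ a * x + b) + φ * oo n0 (3 ^ a * x + b)) := by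
      rw [mul_left_comm, ← e_add, c1, c2]
      congr 2
      push_cast
      ring
    rw [e1, ← sub_mul, norm_mul, norm_e, mul_one]
    exact hfin
  · have hmx' : ¬ Mer (3 ^ a * x + b) n0 := fun h => hmx (hm.2 h)
    rw [if_neg hmx, if_neg hmx', mul_zero, sub_zero, norm_zero]
    exact hε

theorem gc_bdd {n0 : ℤ} (h0 : Dv n0) {h : ℝ → ℂ} (hh : Continuous h) {A : ℝ}
    (hA : ∀ x, Dv x → |rr x| ≤ A) : ∃ H : ℝ, ∀ (θ φ : ℝ) (x : ℤ), ‖GC n0 h θ φ x‖ ≤ H := by
  obtain ⟨H, hH⟩ := (isCompact_Icc (a := -A) (b := A)).exists_bound_of_continuousOn hh.continuousOn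
  refine ⟨max H 0, fun θ φ x => ?_⟩
  unfold GC
  split_ifs with hm
  · rw [norm_mul, norm_e, mul_one]
    exact (hH _ (abs_le.1 (hA x ((dv_mer hm).2 h0)))).trans (le_max_left _ _)
  · rw [norm_zero]
    exact le_max_right _ _

theorem T_side {s : ℤ} (hs : s = 1 ∨ s = -1) (n : ℕ) : T (s * (2 * (n : ℤ))) = s * n := by
  unfold T
  rcases hs with rfl | rfl
  · rw [if_pos (by omega)]; omega
  · rw [if_pos (by omega)]; omega

theorem odds_one_side {s : ℤ} (hs : s = 1 ∨ s = -1) (n : ℕ) : odds 1 (s * (2 * (n : ℤ))) = 0 := by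
  rw [show (1 : ℕ) = 0 + 1 from rfl, odds_succ, odds_zero, Function.iterate_zero, id_eq, if_neg]
  rcases hs with rfl | rfl <;> omega

theorem gc_coc {n0 : ℤ} (h0 : Dv n0) {h : ℝ → ℂ} (hh : Continuous h) {A : ℝ}
    (hA : ∀ x, Dv x → |rr x| ≤ A) {s : ℤ} (hs : s = 1 ∨ s = -1) (θ φ : ℝ) :
    Coc (GC n0 h θ φ) s θ φ := by
  classical
  obtain ⟨H, hH⟩ := gc_bdd h0 hh hA
  refine ⟨⟨H, hH θ φ⟩, ?_, ?_⟩
  · refine ⟨1, fun n hn => ?_⟩
    have hT : T^[1] (s * (2 * (n : ℤ))) = s * n := T_side hs n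
    have hmm : Mer (s * (2 * (n : ℤ))) (s * n) := ⟨1, 0, hT⟩
    unfold GC
    by_cases hmx : Mer (s * n) n0
    · have hmx' := mer_trans hmm hmx
      rw [if_pos hmx, if_pos hmx']
      obtain ⟨i, j, hij⟩ := hmx
      have e1 : T^[i + 1] (s * (2 * (n : ℤ))) = T^[j] n0 := by
        rw [Function.iterate_add_apply, hT, hij]
      obtain ⟨p1, p2⟩ := kk_oo h0 hij
      obtain ⟨q1, q2⟩ := kk_oo h0 e1
      have hd' : Dv (s * (2 * (n : ℤ))) := (dv_mer ⟨i + 1, j, e1⟩).2 h0
      have e2 := rr_iter hd' 1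
      rw [hT, odds_one_side hs] at e2
      have e3 : rr (s * (2 * (n : ℤ))) = rr (s * n) := by
        have hsn : ((s * n : ℤ) : ℝ) ≠ 0 := by
          have : s * (n : ℤ) ≠ 0 := by rcases hs with rfl | rfl <;> omega
          exact_mod_cast this
        have e1 : ((s * (2 * (n : ℤ)) : ℤ) : ℝ) = 2 * ((s * n : ℤ) : ℝ) := by push_cast; ring
        rw [e1, Real.log_mul (by norm_num) hsn] at e2
        push_cast at e2 ⊢
        linarith
      have oq : odds (i + 1) (s * (2 * (n : ℤ))) = odds i (s * n) := by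
        rw [Nat.add_comm i 1, odds_add, odds_one_side hs, hT, zero_add]
      rw [e3, q1, q2, p1, p2, oq, mul_left_comm (e θ), ← e_add]
      congr 2
      push_cast
      ring
    · have hmx' : ¬ Mer (s * (2 * (n : ℤ))) n0 := fun h => hmx (mer_trans (mer_symm hmm) h)
      rw [if_neg hmx, if_neg hmx', mul_zero]
  · intro a b
    apply dz_of_bad (H := 2 * H)
    · intro n
      refine (norm_sub_le _ _).trans ?_
      rw [norm_mul, norm_e, one_mul]
      linarith [hH θ φ (3 ^ a * (s * n) + b), hH θ φ (s * n)]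
    · intro ε hε
      obtain ⟨δ, hδ, hu⟩ := unif hh A hε
      obtain ⟨n1, hn1⟩ := exists_nat_gt (2 * |(b : ℝ)| / δ)
      set n2 : ℕ := n1 + 8 * b.natAbs + 1 with hn2
      refine ⟨fun N => bad s a b 8 N ∪ range n2, ?_, ?_⟩
      · have h1 := bad_card hs a b 8
        have h2 : Tendsto (fun N : ℕ => (n2 : ℝ) / N) atTop (𝓝 0) :=
          tendsto_const_nhds.div_atTop tendsto_natCast_atTop_atTop
        have h3 := h1.add h2
        rw [add_zero] at h3
        refine squeeze_zero (fun N => by positivity) (fun N => ?_) h3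
        rw [← add_div]
        apply div_le_div_of_nonneg_right _ (Nat.cast_nonneg N)
        have h4 := card_union_le (bad s a b 8 N) (range n2)
        rw [card_range] at h4
        exact_mod_cast h4
      · refine Eventually.of_forall fun N n hn hnb => ?_
        rw [mem_union, not_or, mem_range] at hnb
        obtain ⟨h1, h2⟩ := hnb
        have h3 : ¬ (n < 8 * 2 ^ tN N ∨ T^[tN N] (s * n) ≠ T^[tN N] (3 ^ a * (s * n) + b)) := by
          intro h3
          apply h1
          unfold bad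
          rw [mem_filter]
          exact ⟨hn, h3⟩
        push Not at h3
        have habs : |s * (n : ℤ)| = n := by
          rcases hs with rfl | rfl
          · rw [one_mul, abs_of_nonneg (by positivity)]
          · rw [neg_one_mul, abs_neg, abs_of_nonneg (by positivity)]
        have hn0 : 1 ≤ n := (mem_Icc.1 hn).1
        have hne : s * (n : ℤ) ≠ 0 := by
          intro h0
          rw [h0, abs_zero] at habs
          omega
        have habsR : |((s * n : ℤ) : ℝ)| = n := by exact_mod_cast habs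
        refine gc_aff h0 hA hε.le hu hne h3.2 ?_ ?_ ?_
        · rw [habs]
          exact_mod_cast h3.1
        · rw [habs, Int.abs_eq_natAbs b]
          omega
        · rw [habsR]
          rw [div_lt_iff₀ hδ] at hn1
          have h5 : (n1 : ℝ) ≤ n := by exact_mod_cast (by omega : n1 ≤ n)
          nlinarith

end Pool.Agent.Q74.DV
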