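import Pool.Agent.Q74.SP.NA6

/-! Limit laws from convergence of mean values, in general. -/

set_option autoImplicit false

namespace Pool.Agent.Q74.DV

open Finset Filter Topology MeasureTheory

open scoped CompactlySupported

open Pool.Agent.Q74.SP

open Classical in
/-- the function `h ∘ r` on the set `P` -/
noncomputable def gf (P : ℕ → Prop) (r : ℕ → ℝ) (h : ℝ → ℂ) (n : ℕ) : ℂ := if P n then h (r n) else 0

theorem gf_add (P : ℕ → Prop) (r : ℕ → ℝ) (h h' : ℝ → ℂ) (n : ℕ) :
    gf P r (fun t => h t + h' t) n = gf P r h n + gf P r h' n := by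
  unfold gf
  split_ifs
  · ring
  · ring

theorem gf_mul (P : ℕ → Prop) (r : ℕ → ℝ) (c : ℂ) (h : ℝ → ℂ) (n : ℕ) :
    gf P r (fun t => c * h t) n = c * gf P r h n := by
  unfold gf
  split_ifs
  · ring
  · ring

/-- convergence of the mean values -/
def Cv (P : ℕ → Prop) (r : ℕ → ℝ) : Prop :=
  ∀ h : ℝ → ℂ, Continuous h → ∃ L : ℂ, Tendsto (mean (gf P r h)) atTop (𝓝 L)

/-- the limit of the mean values -/
noncomputable def lm (P : ℕ → Prop) (r : ℕ → ℝ) (h : ℝ → ℂ) : ℂ := limUnder atTop (mean (gf P r h))

theorem lm_spec {P : ℕ → Prop} {r : ℕ → ℝ} (hc : Cv P r) {h : ℝ → ℂ} (hh : Continuous h) :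
    Tendsto (mean (gf P r h)) atTop (𝓝 (lm P r h)) :=
  tendsto_nhds_limUnder (hc h hh)

theorem lm_add {P : ℕ → Prop} {r : ℕ → ℝ} (hc : Cv P r) {h h' : ℝ → ℂ} (hh : Continuous h)
    (hh' : Continuous h') : lm P r (fun t => h t + h' t) = lm P r h + lm P r h' := by
  have h1 := (lm_spec hc hh).add (lm_spec hc hh')
  refine tendsto_nhds_unique (lm_spec hc (hh.add hh')) (h1.congr fun N => ?_)
  rw [← mean_add]
  congr 1
  funext n
  rw [← gf_add]

theorem lm_mul {P : ℕ → Prop} {r : ℕ → ℝ} (hc : Cv P r) (c : ℂ) {h : ℝ → ℂ} (hh : Continuous h) :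
    lm P r (fun t => c * h t) = c * lm P r h := by
  have h1 := (lm_spec hc hh).const_mul c
  refine tendsto_nhds_unique (lm_spec hc (continuous_const.mul hh)) (h1.congr fun N => ?_)
  rw [← mean_mul]
  congr 1
  funext n
  rw [← gf_mul]

theorem lm_re {P : ℕ → Prop} {r : ℕ → ℝ} (hc : Cv P r) {g : ℝ → ℝ} (hg : Continuous g) :
    ((lm P r fun t => (g t : ℂ)).re : ℂ) = lm P r fun t => (g t : ℂ) := by
  have h1 := lm_spec hc (Complex.continuous_ofReal.comp hg)
  have h2 : Tendsto (fun N => (mean (gf P r (Complex.ofReal ∘ g)) N).im) atTop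
      (𝓝 (lm P r (Complex.ofReal ∘ g)).im) := (Complex.continuous_im.tendsto _).comp h1
  have h3 : ∀ N, (mean (gf P r (Complex.ofReal ∘ g)) N).im = 0 := by
    intro N
    unfold mean
    rw [Complex.div_natCast_im, Complex.im_sum, sum_eq_zero, zero_div]
    intro n _
    unfold gf
    split_ifs
    · simp only [Function.comp_apply]
      exact Complex.ofReal_im _
    · rfl
  have h4 : (lm P r (Complex.ofReal ∘ g)).im = 0 := by
    refine tendsto_nhds_unique h2 ?_
    simp only [h3]
    exact tendsto_const_nhds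
  apply Complex.ext
  · exact Complex.ofReal_re _
  · rw [Complex.ofReal_im]
    exact h4.symm

theorem lm_nonneg {P : ℕ → Prop} {r : ℕ → ℝ} (hc : Cv P r) {g : ℝ → ℝ} (hg : Continuous g)
    (h0 : ∀ t, 0 ≤ g t) : 0 ≤ (lm P r fun t => (g t : ℂ)).re := by
  have h1 := lm_spec hc (Complex.continuous_ofReal.comp hg)
  have h2 : Tendsto (fun N => (mean (gf P r (Complex.ofReal ∘ g)) N).re) atTop
      (𝓝 (lm P r (Complex.ofReal ∘ g)).re) := (Complex.continuous_re.tendsto _).comp h1
  refine ge_of_tendsto' h2 fun N => ?_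
  unfold mean
  rw [Complex.div_natCast_re, Complex.re_sum]
  apply div_nonneg _ (Nat.cast_nonneg N)
  apply sum_nonneg
  intro n _
  unfold gf
  split_ifs
  · simp only [Function.comp_apply]
    rw [Complex.ofReal_re]
    exact h0 _
  · exact le_rfl

/-- the limit law -/
theorem gen_law {P : ℕ → Prop} {r : ℕ → ℝ} {A : ℝ} (hA0 : 0 < A) (hA : ∀ n, 1 ≤ n → P n → |r n| ≤ A)
    (hc : Cv P r) : ∃ ν : Measure ℝ, IsFiniteMeasure ν ∧ ν (Set.Icc (-A) A)ᶜ = 0 ∧
      ∀ h : ℝ → ℂ, Continuous h → Tendsto (mean (gf P r h)) atTop (𝓝 (∫ x, h x ∂ν)) := by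
  have hle : -A ≤ A := by linarith
  let K : Type := Set.Icc (-A) A
  let pr : ℝ → K := Set.projIcc (-A) A hle
  have hpr : Continuous pr := continuous_projIcc
  let Λ : C_c(K, ℝ) →ₚ[ℝ] ℝ :=
    PositiveLinearMap.mk₀
      { toFun := fun g => (lm P r fun t => ((g (pr t) : ℝ) : ℂ)).re
        map_add' := fun g g' => by
          have h1 : Continuous fun t => ((g (pr t) : ℝ) : ℂ) :=
            Complex.continuous_ofReal.comp ((map_continuous g).comp hpr)
          have h2 : Continuous fun t => ((g' (pr t) : ℝ) : ℂ) :=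
            Complex.continuous_ofReal.comp ((map_continuous g').comp hpr)
          rw [← Complex.add_re, ← lm_add hc h1 h2]
          congr 2
          funext t
          rw [← Complex.ofReal_add]
          rfl
        map_smul' := fun c g => by
          have h1 : Continuous fun t => ((g (pr t) : ℝ) : ℂ) :=
            Complex.continuous_ofReal.comp ((map_continuous g).comp hpr)
          have h2 : (fun t => (((c • g) (pr t) : ℝ) : ℂ)) = fun t => (c : ℂ) * ((g (pr t) : ℝ) : ℂ) := by
            funext t
            rw [← Complex.ofReal_mul]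
            rfl
          rw [h2, lm_mul hc _ h1, RingHom.id_apply, smul_eq_mul, Complex.re_ofReal_mul] }
      (fun g hg => lm_nonneg hc ((map_continuous g).comp hpr) fun t => hg (pr t))
  let μ : Measure K := RealRMK.rieszMeasure Λ
  refine ⟨μ.map Subtype.val, by infer_instance, ?_, ?_⟩
  · rw [Measure.map_apply measurable_subtype_coe measurableSet_Icc.compl]
    have : (Subtype.val ⁻¹' (Set.Icc (-A) A)ᶜ : Set K) = ∅ := by
      ext x
      simp only [Set.mem_preimage, Set.mem_compl_iff, Set.mem_empty_iff_false, iff_false, not_not]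
      exact x.2
    rw [this, measure_empty]
  · -- real functions
    have real : ∀ q : ℝ → ℝ, Continuous q →
        Tendsto (mean (gf P r fun t => (q t : ℂ))) atTop
          (𝓝 ((∫ x, q x ∂(μ.map Subtype.val) : ℝ) : ℂ)) := by
      intro q hq
      let g : C_c(K, ℝ) :=
        { toFun := fun x => q (Subtype.val x)
          continuous_toFun := hq.comp continuous_subtype_val
          hasCompactSupport' := HasCompactSupport.of_compactSpace _ }
      have h1 : ∫ x, g x ∂μ = Λ g := RealRMK.integral_rieszMeasure Λ g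
      have h2 : ∫ x, q x ∂(μ.map Subtype.val) = ∫ x, g x ∂μ := by
        rw [integral_map measurable_subtype_coe.aemeasurable hq.aestronglyMeasurable]
        rfl
      have hg : Continuous fun t => g (pr t) := (map_continuous g).comp hpr
      have h3 : ((Λ g : ℝ) : ℂ) = lm P r fun t => ((g (pr t) : ℝ) : ℂ) := lm_re hc hg
      have h4 := lm_spec hc (Complex.continuous_ofReal.comp hg)
      rw [h2, h1, h3]
      have hpt : ∀ n : ℕ, 1 ≤ n → gf P r (Complex.ofReal ∘ fun t => g (pr t)) n
          = gf P r (fun t => (q t : ℂ)) n := by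
        intro n hn
        unfold gf
        by_cases hm : P n
        · rw [if_pos hm, if_pos hm]
          have h5 := hA _ hn hm
          have h6 : (pr (r n)).1 = r n := by
            have := Set.projIcc_of_mem hle (Set.mem_Icc.2 (abs_le.1 h5))
            simp only [pr, this]
          simp only [Function.comp_apply]
          congr 1
          change q (pr (r n)).1 = _
          rw [h6]
        · rw [if_neg hm, if_neg hm]
      have h7 : (mean (gf P r (Complex.ofReal ∘ fun t => g (pr t))))
          = mean (gf P r fun t => (q t : ℂ)) := by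
        apply mean_congr
        intro n hn
        exact hpt n hn
      rw [← h7]
      exact h4
    intro h hh
    have hre : Continuous fun t => (h t).re := Complex.continuous_re.comp hh
    have him : Continuous fun t => (h t).im := Complex.continuous_im.comp hh
    have h1 := (real _ hre).add ((real _ him).const_mul Complex.I)
    have hint : Integrable h (μ.map Subtype.val) := by
      obtain ⟨H, hH⟩ := (isCompact_Icc (a := -A) (b := A)).exists_bound_of_continuousOn hh.continuousOn
      refine Integrable.of_bound hh.aestronglyMeasurable H ?_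
      rw [ae_iff]
      refine measure_mono_null (t := (Set.Icc (-A) A)ᶜ) ?_ ?_
      · intro x hx hx'
        exact hx (hH x hx')
      · rw [Measure.map_apply measurable_subtype_coe measurableSet_Icc.compl]
        have : (Subtype.val ⁻¹' (Set.Icc (-A) A)ᶜ : Set K) = ∅ := by
          ext x
          simp only [Set.mem_preimage, Set.mem_compl_iff, Set.mem_empty_iff_false, iff_false, not_not]
          exact x.2
        rw [this, measure_empty]
    have h2 : ∫ x, h x ∂(μ.map Subtype.val) = ((∫ x, (h x).re ∂(μ.map Subtype.val) : ℝ) : ℂ)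
        + Complex.I * ((∫ x, (h x).im ∂(μ.map Subtype.val) : ℝ) : ℂ) := by
      have := integral_re_add_im (𝕜 := ℂ) hint
      rw [← this, mul_comm Complex.I]
      rfl
    rw [h2]
    refine h1.congr fun N => ?_
    rw [← mean_mul, ← mean_add]
    congr 1
    funext n
    rw [← gf_mul, ← gf_add]
    congr 1
    funext t
    rw [mul_comm]
    exact Complex.re_add_im (h t)

open Classical in
/-- small masses from rare values -/
theorem gen_small {P : ℕ → Prop} {r : ℕ → ℝ} {ν : Measure ℝ} [IsFiniteMeasure ν] {A : ℝ}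
    (hA : ν (Set.Icc (-A) A)ᶜ = 0)
    (hlaw : ∀ h : ℝ → ℂ, Continuous h → Tendsto (mean (gf P r h)) atTop (𝓝 (∫ x, h x ∂ν)))
    {ε η : ℝ} (hη : 0 < η) {r0 : ℝ} {N0 : ℕ}
    (h : ∀ N : ℕ, N0 ≤ N → (((Icc 1 N).filter fun n : ℕ => P n ∧ |r n - r0| ≤ η).card : ℝ) ≤ ε * N) :
    ν.real (Set.Icc (r0 - η / 2) (r0 + η / 2)) ≤ ε := by
  have h2 : 0 < η / 2 := by positivity
  have hlim := hlaw (fun x => (trap r0 (η / 2) x : ℂ)) (Complex.continuous_ofReal.comp (trap_cont _ _))
  have e1 : ∫ x, ((trap r0 (η / 2) x : ℝ) : ℂ) ∂ν = ((∫ x, trap r0 (η / 2) x ∂ν : ℝ) : ℂ) := integral_ofReal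
  rw [e1] at hlim
  have hre : Tendsto (fun N => (mean (gf P r (fun x => (trap r0 (η / 2) x : ℂ))) N).re) atTop
      (𝓝 (∫ x, trap r0 (η / 2) x ∂ν)) := by
    have := (Complex.continuous_re.tendsto _).comp hlim
    rwa [Complex.ofReal_re] at this
  have hle : ∫ x, trap r0 (η / 2) x ∂ν ≤ ε := by
    refine le_of_tendsto hre ?_
    filter_upwards [eventually_ge_atTop (max N0 1)] with N hN
    have hN1 : 1 ≤ N := (le_max_right _ _).trans hN
    have hNpos : (0 : ℝ) < N := by exact_mod_cast hN1
    unfold mean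
    rw [Complex.div_natCast_re, Complex.re_sum, div_le_iff₀ hNpos]
    refine le_trans ?_ (h N ((le_max_left _ _).trans hN))
    rw [Finset.card_filter]
    push_cast
    apply sum_le_sum
    intro n _
    unfold gf
    by_cases hm : P n
    · rw [if_pos hm]
      simp only [Complex.ofReal_re]
      by_cases hc : |r n - r0| ≤ η
      · rw [if_pos ⟨hm, hc⟩]
        exact trap_le _ _ _
      · rw [if_neg (fun h => hc h.2)]
        rw [trap_zero h2 (by linarith [not_le.1 hc])]
    · rw [if_neg hm, if_neg (fun h => hm h.1)]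
      simp
  refine le_trans ?_ hle
  have h3 : ν.real (Set.Icc (r0 - η / 2) (r0 + η / 2)) =
      ∫ x, (Set.Icc (r0 - η / 2) (r0 + η / 2)).indicator (fun _ => (1 : ℝ)) x ∂ν := by
    rw [integral_indicator measurableSet_Icc, setIntegral_const, smul_eq_mul, mul_one]
  rw [h3]
  apply integral_mono
  · exact (integrable_const (1 : ℝ)).indicator measurableSet_Icc
  · exact integrable_of_supp hA (trap_cont _ _)
  · intro x
    by_cases hx : x ∈ Set.Icc (r0 - η / 2) (r0 + η / 2)
    · rw [Set.indicator_of_mem hx, trap_one h2]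
      rw [abs_le]
      constructor <;> linarith [hx.1, hx.2]
    · rw [Set.indicator_of_notMem hx]
      exact trap_nonneg _ _ _

end Pool.Agent.Q74.DV
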