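import Pool.Agent.Q74.DV.Base
import Pool.Agent.Q74.DV.Gen

/-! Limit laws of the residues on sets of divergent integers closed under merging. -/

set_option autoImplicit false

namespace Pool.Agent.Q74.DV

open Finset Filter Topology MeasureTheory

open Pool.Agent.Q74.SP

open Pool.Agent.H499R2.LT (Hit FY PF od)
open Pool.Agent.H499R2.ND (Td Stay stay_side)

open Classical in
theorem stay_small {s : ℤ} (hs : s = 1 ∨ s = -1) {ε : ℝ} (hε : 0 < ε) : ∃ Y0 : ℕ, ∀ Y : ℕ, Y0 ≤ Y →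
    ∀ N : ℕ, 1 ≤ N →
      (((Icc 1 N).filter fun n : ℕ => s * (n : ℤ) ∈ Stay 1 (Y : ℝ)).card : ℝ) ≤ ε * N := by
  obtain ⟨K, hK, h⟩ := stay_side 1 odd_one (show IsCoprime (1 : ℤ) 3 from isCoprime_one_left) hs
  obtain ⟨Y0, hY0⟩ := exists_nat_ge (Real.exp (2 * K / ε) + 2)
  refine ⟨Y0, fun Y hY N hN => ?_⟩
  have hY' : Real.exp (2 * K / ε) + 2 ≤ (Y : ℝ) := hY0.trans (by exact_mod_cast hY)
  have he := Real.exp_pos (2 * K / ε)
  have hlog : 2 * K / ε ≤ Real.log Y := by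
    rw [Real.le_log_iff_exp_le (by linarith)]
    linarith
  have hlog0 : 0 < Real.log Y := lt_of_lt_of_le (by positivity) hlog
  have h1 := h Y (by linarith) ((N : ℝ) + 1) (by positivity)
  have h2 : (((Icc 1 N).filter fun n : ℕ => s * (n : ℤ) ∈ Stay 1 (Y : ℝ)).card : ℝ) ≤
      Pool.Agent.H499R2.ND.G {x | s * x ∈ Stay 1 (Y : ℝ)} ((N : ℝ) + 1) := by
    unfold Pool.Agent.H499R2.ND.G
    have h3 : ((Icc 1 N).filter fun n : ℕ => s * (n : ℤ) ∈ Stay 1 (Y : ℝ)).image (fun n : ℕ => (n : ℤ)) ⊆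
        Pool.Agent.H499R2.ND.pos {x | s * x ∈ Stay 1 (Y : ℝ)} ((N : ℝ) + 1) := by
      intro x hx
      rw [mem_image] at hx
      obtain ⟨n, hn, rfl⟩ := hx
      rw [mem_filter, mem_Icc] at hn
      rw [Pool.Agent.H499R2.ND.mem_pos]
      refine ⟨⟨by exact_mod_cast hn.1.1, ?_⟩, hn.2⟩
      have : (n : ℝ) ≤ N := by exact_mod_cast hn.1.2
      push_cast
      linarith
    have h4 := card_le_card h3
    rw [card_image_of_injective _ Nat.cast_injective] at h4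
    exact_mod_cast h4
  refine h2.trans (h1.trans ?_)
  rw [pow_one, div_le_iff₀ hlog0]
  have hN1 : (1 : ℝ) ≤ N := by exact_mod_cast hN
  have h5 : 2 * K ≤ Real.log Y * ε := by rwa [div_le_iff₀ hε] at hlog
  calc K * ((N : ℝ) + 1) ≤ K * (2 * N) := by
        apply mul_le_mul_of_nonneg_left _ hK.le
        linarith
    _ = 2 * K * N := by ring
    _ ≤ Real.log Y * ε * N := by
        apply mul_le_mul_of_nonneg_right h5 (by positivity)
    _ = ε * N * Real.log Y := by ring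

/-- sets of divergent integers closed under merging -/
structure Cl (S : Set ℤ) : Prop where
  inv : ∀ x : ℤ, x ∈ S ↔ T x ∈ S
  div : ∀ x ∈ S, Dv x

theorem Cl.iter {S : Set ℤ} (hS : Cl S) (x : ℤ) (j : ℕ) : x ∈ S ↔ T^[j] x ∈ S := by
  induction j with
  | zero => rfl
  | succ j ih => rw [ih, Function.iterate_succ_apply', ← hS.inv]

theorem split {S : Set ℤ} (hS : Cl S) {ε : ℝ} (hε : 0 < ε) : ∃ Y0 : ℕ, ∀ Y : ℕ, Y0 ≤ Y →
    ∀ (x g : ℤ) (j : ℕ), x ≠ 0 → Hit 1 (FY Y) g x j →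
      (x ∈ S ↔ g ∈ S) ∧ (x ∈ S → |rr x - rr g| ≤ ε) := by
  obtain ⟨C, Y0, hC, hY0, hpl⟩ := Pool.Agent.H499R2.LT.path_log odd_one
    (show IsCoprime (1 : ℤ) 3 from isCoprime_one_left)
  have hlim : Tendsto (fun Y : ℕ => C / (Y : ℝ) ^ (1 / 25 : ℝ)) atTop (𝓝 0) :=
    tendsto_const_nhds.div_atTop ((tendsto_rpow_atTop (by norm_num)).comp tendsto_natCast_atTop_atTop)
  obtain ⟨Y1, hY1⟩ := eventually_atTop.1 ((hlim.eventually (gt_mem_nhds hε)).and (eventually_ge_atTop Y0))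
  refine ⟨Y1, fun Y hY x g j hx hh => ?_⟩
  obtain ⟨h1, h2⟩ := hY1 Y hY
  obtain ⟨-, hlog⟩ := hpl Y h2 x g j hx hh
  have hg : T^[j] x = g := hh.1
  refine ⟨by rw [← hg]; exact hS.iter x j, fun hxS => ?_⟩
  have h3 := rr_iter (hS.div x hxS) j
  rw [hg] at h3
  rw [od_eq'] at hlog
  push_cast at hlog
  have e1 : rr x - rr g = -(Real.log (x : ℝ) + odds j x * Real.log 3 - j * Real.log 2 - Real.log (g : ℝ)) := by
    rw [h3]
    ring
  rw [e1, abs_neg]
  exact hlog.trans h1.le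

/-- the set of the `n` with `s n ∈ S` -/
def PS (s : ℤ) (S : Set ℤ) (n : ℕ) : Prop := s * (n : ℤ) ∈ S

/-- the residue of `s n` -/
noncomputable def rs (s : ℤ) (n : ℕ) : ℝ := rr (s * n)

open Classical in
theorem mean_dist' {u v : ℕ → ℂ} {ε H : ℝ} (hε : 0 ≤ ε) (hH : 0 ≤ H) {E : ℕ → Prop}
    (h : ∀ n, 1 ≤ n → ¬ E n → ‖u n - v n‖ ≤ ε) (h' : ∀ n, 1 ≤ n → ‖u n - v n‖ ≤ H) {N : ℕ} (hN : 1 ≤ N)
    (hE : (((Icc 1 N).filter E).card : ℝ) ≤ ε * N) :
    ‖mean u N - mean v N‖ ≤ ε + H * ε := by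
  have hN0 : (0 : ℝ) < N := by exact_mod_cast hN
  unfold mean
  rw [← sub_div, norm_div, Complex.norm_natCast, ← Finset.sum_sub_distrib, div_le_iff₀ hN0]
  refine (norm_sum_le _ _).trans ?_
  have h1 : ∀ n ∈ Icc 1 N, ‖u n - v n‖ ≤ ε + H * (if E n then 1 else 0) := by
    intro n hn
    have hn1 := (mem_Icc.1 hn).1
    by_cases hEn : E n
    · rw [if_pos hEn, mul_one]
      exact (h' n hn1).trans (by linarith)
    · rw [if_neg hEn, mul_zero, add_zero]
      exact h n hn1 hEn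
  refine (sum_le_sum h1).trans ?_
  rw [sum_add_distrib, sum_const, Nat.card_Icc, Nat.add_sub_cancel, nsmul_eq_mul, ← mul_sum, sum_boole]
  have h2 : H * (((Icc 1 N).filter E).card : ℝ) ≤ H * (ε * N) := mul_le_mul_of_nonneg_left hE hH
  nlinarith

open Classical in
theorem mean_class {s : ℤ} (hs : s = 1 ∨ s = -1) {S : Set ℤ} (hS : Cl S) : Cv (PS s S) (rs s) := by
  intro h hh
  obtain ⟨A, hA0, hA⟩ := W_spec
  obtain ⟨H, hH⟩ := (isCompact_Icc (a := -A) (b := A)).exists_bound_of_continuousOn hh.continuousOn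
  have hH0 : 0 ≤ H := (norm_nonneg _).trans (hH 0 ⟨by linarith, by linarith⟩)
  set f : ℤ → ℂ := fun x => if x ∈ S then h (rr x) else 0 with hf
  have hfH : ∀ x, ‖f x‖ ≤ H := by
    intro x
    rw [hf]
    simp only
    split_ifs with hx
    · exact hH _ (abs_le.1 (hA x (hS.div x hx)).2.2)
    · rw [norm_zero]; exact hH0
  have hgf : mean (gf (PS s S) (rs s) h) = mean fun n => f (s * n) := by
    apply mean_congr
    intro n _
    rfl
  rw [hgf]
  apply cauchySeq_tendsto_of_complete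
  rw [Metric.cauchySeq_iff]
  intro ε hε
  set ε1 : ℝ := ε / (8 * (1 + H)) with hε1
  have hε1pos : 0 < ε1 := by positivity
  obtain ⟨δ, hδ, hu⟩ := unif hh A hε1pos
  obtain ⟨Y0, hY0⟩ := split hS (half_pos hδ)
  obtain ⟨Y1, hY1⟩ := stay_small hs hε1pos
  set Y := max Y0 Y1 with hY
  set v : ℕ → ℂ := fun n => ∑ g ∈ FY Y, if s * (n : ℤ) ∈ PF 1 (FY Y) g then f g else 0 with hv
  have hpt : ∀ x : ℤ, x ≠ 0 →
      (x ∉ Stay 1 (Y : ℝ) → ‖f x - ∑ g ∈ FY Y, (if x ∈ PF 1 (FY Y) g then f g else 0)‖ ≤ ε1) ∧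
      ‖f x - ∑ g ∈ FY Y, (if x ∈ PF 1 (FY Y) g then f g else 0)‖ ≤ 2 * H := by
    intro x hx
    by_cases hex : ∃ g j, Hit 1 (FY Y) g x j
    · obtain ⟨g, j, hg⟩ := hex
      have h1 : ∑ g' ∈ FY Y, (if x ∈ PF 1 (FY Y) g' then f g' else 0) = f g := by
        rw [Finset.sum_eq_single_of_mem g hg.2.1]
        · rw [if_pos ⟨j, hg⟩]
        · intro g' _ hne
          rw [if_neg]
          rintro ⟨j', hj'⟩
          exact hne (Pool.Agent.H499R2.LT.Hit_unique hj' hg).1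
      rw [h1]
      obtain ⟨hm, hl⟩ := hY0 Y (le_max_left _ _) x g j hx hg
      refine ⟨fun _ => ?_, (norm_sub_le _ _).trans (by linarith [hfH x, hfH g])⟩
      rw [hf]
      simp only
      by_cases hxS : x ∈ S
      · rw [if_pos hxS, if_pos (hm.1 hxS)]
        exact hu _ _ (hA x (hS.div x hxS)).2.2 (hA g (hS.div g (hm.1 hxS))).2.2
          ((hl hxS).trans_lt (by linarith))
      · rw [if_neg hxS, if_neg (fun h => hxS (hm.2 h)), sub_zero, norm_zero]
        exact hε1pos.le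
    · have h1 : ∑ g' ∈ FY Y, (if x ∈ PF 1 (FY Y) g' then f g' else 0) = 0 := by
        apply Finset.sum_eq_zero
        intro g' _
        rw [if_neg]
        rintro ⟨j', hj'⟩
        exact hex ⟨g', j', hj'⟩
      rw [h1, sub_zero]
      refine ⟨fun hns => ?_, (hfH x).trans (by linarith)⟩
      exfalso
      apply hns
      intro k
      by_contra hcon
      push Not at hcon
      have h3 : Meets (FY Y) x := by
        refine ⟨k, ?_⟩
        unfold FY
        rw [mem_Icc, ← abs_le]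
        have h4 : |(((Td 1)^[k] x : ℤ) : ℝ)| ≤ Y := hcon
        exact_mod_cast h4
      exact hex ⟨_, _, hit_of_meets h3⟩
  have hclose : ∀ N : ℕ, 1 ≤ N → ‖mean (fun n => f (s * n)) N - mean v N‖ ≤ ε1 + 2 * H * ε1 := by
    intro N hN
    refine mean_dist' (E := fun n : ℕ => s * (n : ℤ) ∈ Stay 1 (Y : ℝ)) hε1pos.le (by positivity) ?_ ?_ hN
      (hY1 Y (le_max_right _ _) N hN)
    · intro n hn hE
      exact (hpt (s * n) (by rcases hs with rfl | rfl <;> omega)).1 hE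
    · intro n hn
      exact (hpt (s * n) (by rcases hs with rfl | rfl <;> omega)).2
  choose L hL using fun g : ℤ => mean_ind hs (FY Y) (f g) g
  have h1 := mean_sum (FY Y) _ L (fun g _ => hL g)
  obtain ⟨N0, hN0⟩ := (Metric.tendsto_atTop.1 h1) ε1 hε1pos
  have hval : 2 * (ε1 + 2 * H * ε1) + 2 * ε1 < ε := by
    have e1 : ε1 * (8 * (1 + H)) = ε := by rw [hε1]; field_simp
    nlinarith
  refine ⟨max N0 1, fun m hm n hn => ?_⟩
  have a1 := hclose m ((le_max_right _ _).trans hm)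
  have a2 := hclose n ((le_max_right _ _).trans hn)
  have a3 := hN0 m ((le_max_left _ _).trans hm)
  have a4 := hN0 n ((le_max_left _ _).trans hn)
  rw [← dist_eq_norm] at a1 a2
  have t1 := dist_triangle (mean (fun n => f (s * n)) m) (mean v m) (mean (fun n => f (s * n)) n)
  have t2 := dist_triangle (mean v m) (∑ g ∈ FY Y, L g) (mean (fun n => f (s * n)) n)
  have t3 := dist_triangle (∑ g ∈ FY Y, L g) (mean v n) (mean (fun n => f (s * n)) n)
  rw [dist_comm] at a4 a2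
  change dist (mean v m) _ < _ at a3
  change dist _ (mean v n) < _ at a4
  linarith

open Classical in
/-- values of the residue are rare -/
theorem rare_class {s : ℤ} (hs : s = 1 ∨ s = -1) {S : Set ℤ} (hS : Cl S) {ε : ℝ} (hε : 0 < ε) :
    ∃ η : ℝ, 0 < η ∧ ∃ N0 : ℕ, ∀ r : ℝ, ∀ N : ℕ, N0 ≤ N →
      (((Icc 1 N).filter fun n : ℕ => PS s S n ∧ |rs s n - r| ≤ η).card : ℝ) ≤ ε * N := by
  obtain ⟨Y, hY⟩ := stay_small hs (half_pos hε)
  set F : Finset ℤ := (FY Y).filter (fun g => g ∈ S) with hF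
  set ε1 : ℝ := ε / (2 * (F.card + 1)) with hε1
  have hε1pos : 0 < ε1 := by positivity
  obtain ⟨η, hη, N0, h⟩ := lr_rare hs F hε1pos
  refine ⟨η, hη, max N0 1, fun r N hN => ?_⟩
  have hN0 : N0 ≤ N := (le_max_left _ _).trans hN
  have hN1 : 1 ≤ N := (le_max_right _ _).trans hN
  have hsub : ((Icc 1 N).filter fun n : ℕ => PS s S n ∧ |rs s n - r| ≤ η) ⊆
      ((Icc 1 N).filter fun n : ℕ => s * (n : ℤ) ∈ Stay 1 (Y : ℝ)) ∪
      F.biUnion (fun g => (Icc 1 N).filter fun n : ℕ => Meets F (s * n) ∧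
        |lr F (s * n) - (r - (rr g + Real.log (g : ℝ)))| ≤ η) := by
    intro n hn
    rw [mem_filter] at hn
    obtain ⟨hn1, hnS, hr⟩ := hn
    rw [mem_union]
    by_cases hst : s * (n : ℤ) ∈ Stay 1 (Y : ℝ)
    · left; exact mem_filter.2 ⟨hn1, hst⟩
    · right
      have hm : Meets F (s * n) := by
        unfold Stay at hst
        simp only [Set.mem_setOf_eq, not_forall, not_lt] at hst
        obtain ⟨k, hk⟩ := hst
        refine ⟨k, ?_⟩
        rw [hF, mem_filter]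
        constructor
        · unfold FY
          rw [mem_Icc, ← abs_le]
          exact_mod_cast hk
        · exact (hS.iter _ k).1 hnS
      have hspec := time_spec hm
      rw [mem_biUnion]
      refine ⟨_, hspec, mem_filter.2 ⟨hn1, hm, ?_⟩⟩
      have h1 := rr_iter (hS.div _ hnS) (time F (s * n))
      have h2 : lr F (s * n) - (r - (rr (T^[time F (s * n)] (s * n)) +
          Real.log ((T^[time F (s * n)] (s * n) : ℤ) : ℝ))) = rs s n - r := by
        unfold lr rs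
        linarith
      rw [h2]
      exact hr
  have hc := (card_le_card hsub).trans ((card_union_le _ _).trans (Nat.add_le_add_left card_biUnion_le _))
  have hc' : (((Icc 1 N).filter fun n : ℕ => PS s S n ∧ |rs s n - r| ≤ η).card : ℝ) ≤
      (((Icc 1 N).filter fun n : ℕ => s * (n : ℤ) ∈ Stay 1 (Y : ℝ)).card : ℝ) +
      ∑ g ∈ F, (((Icc 1 N).filter fun n : ℕ => Meets F (s * n) ∧
        |lr F (s * n) - (r - (rr g + Real.log (g : ℝ)))| ≤ η).card : ℝ) := by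
    exact_mod_cast hc
  refine hc'.trans ?_
  have h1 := hY Y le_rfl N hN1
  have h2 : ∑ g ∈ F, (((Icc 1 N).filter fun n : ℕ => Meets F (s * n) ∧
        |lr F (s * n) - (r - (rr g + Real.log (g : ℝ)))| ≤ η).card : ℝ) ≤ ∑ g ∈ F, ε1 * N :=
    sum_le_sum fun g _ => h _ N hN0
  rw [sum_const, nsmul_eq_mul] at h2
  have h3 : (F.card : ℝ) * (ε1 * N) ≤ ε / 2 * N := by
    have e1 : (F.card : ℝ) * ε1 ≤ ε / 2 := by
      rw [hε1, mul_div_assoc', div_le_div_iff₀ (by positivity) (by norm_num)]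
      have : (0 : ℝ) ≤ F.card := Nat.cast_nonneg _
      nlinarith
    have : (0 : ℝ) ≤ N := Nat.cast_nonneg _
    nlinarith
  linarith

/-- THE LIMIT LAW of the residues on a set closed under merging -/
theorem class_law {s : ℤ} (hs : s = 1 ∨ s = -1) {S : Set ℤ} (hS : Cl S) {A : ℝ} (hA0 : 0 < A)
    (hA : ∀ n : ℤ, Dv n → |rr n| ≤ A) :
    ∃ ν : Measure ℝ, IsFiniteMeasure ν ∧ ν (Set.Icc (-A) A)ᶜ = 0 ∧
      (∀ ε : ℝ, 0 < ε → ∃ η : ℝ, 0 < η ∧ ∀ r : ℝ, ν.real (Set.Icc (r - η) (r + η)) ≤ ε) ∧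
      ∀ h : ℝ → ℂ, Continuous h → Tendsto (mean (gf (PS s S) (rs s) h)) atTop (𝓝 (∫ x, h x ∂ν)) := by
  obtain ⟨ν, hν, hsupp, hlaw⟩ := gen_law hA0 (fun n _ hn => hA _ (hS.div _ hn)) (mean_class hs hS)
  refine ⟨ν, hν, hsupp, ?_, hlaw⟩
  intro ε hε
  obtain ⟨η, hη, N0, h⟩ := rare_class hs hS hε
  exact ⟨η / 2, by positivity, fun r => gen_small hsupp hlaw hη (h r)⟩

end Pool.Agent.Q74.DV
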